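import Mathlib

/-!
Cartesian powers of the Shrikhande graph (the Doob graphs without complete factors) are
distance-regular, but they are neither cores nor have complete cores.
-/

namespace Pool.Agent.Results.MP_06b6d5_co.DoobGraphs

open SimpleGraph

/-- A connected graph in which, for vertices `u v` at distance `i`, the number of neighbours of
`v` at distance `i - 1` from `u` is `c i` and the number of neighbours of `v` at distance
`i + 1` from `u` is `b i`, for fixed functions `b` and `c`. -/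
def IsDistanceRegular {V : Type} (X : SimpleGraph V) : Prop :=
  X.Connected ∧ ∃ b c : ℕ → ℕ, ∀ u v : V,
    {w | X.Adj v w ∧ X.dist u w + 1 = X.dist u v}.ncard = c (X.dist u v) ∧
    {w | X.Adj v w ∧ X.dist u w = X.dist u v + 1}.ncard = b (X.dist u v)

/-- A core: every endomorphism is an automorphism. -/
def IsCore {W : Type} (Y : SimpleGraph W) : Prop :=
  ∀ f : Y →g Y, ∃ e : Y ≃g Y, ∀ w, e w = f w

/-- `Y` is (isomorphic to) the core of `X`: it is a core, it is isomorphic to an induced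
subgraph of `X`, and `X` has a homomorphism to it. -/
def IsCoreOf {V W : Type} (Y : SimpleGraph W) (X : SimpleGraph V) : Prop :=
  IsCore Y ∧ Nonempty (Y ↪g X) ∧ Nonempty (X →g Y)

/-! ### The Shrikhande graph -/

/-- The connection set of the Shrikhande graph. -/
def conn : Finset (ZMod 4 × ZMod 4) := {(1, 0), (3, 0), (0, 1), (0, 3), (1, 1), (3, 3)}

/-- The Shrikhande graph. -/
def Sh : SimpleGraph (ZMod 4 × ZMod 4) where
  Adj x y := y - x ∈ conn
  symm := ⟨by
    intro x y h
    have key : ∀ z ∈ conn, -z ∈ conn := by decide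
    have := key _ h
    rwa [neg_sub] at this⟩
  loopless := ⟨by
    intro x h
    rw [sub_self] at h
    exact absurd h (by decide)⟩

theorem sh_adj (x y : ZMod 4 × ZMod 4) : Sh.Adj x y ↔ y - x ∈ conn := Iff.rfl

instance : DecidableRel Sh.Adj := fun x y => inferInstanceAs (Decidable (y - x ∈ conn))

/-- The distance from the zero vertex. -/
def wt (z : ZMod 4 × ZMod 4) : ℕ := if z = 0 then 0 else if z ∈ conn then 1 else 2

/-- Graphs with a Hamming type distance function. -/
structure HamLike {V : Type} (G : SimpleGraph V) (d : ℕ) (δ : V → V → ℕ) : Prop where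
  zero : ∀ u v, δ u v = 0 ↔ u = v
  step : ∀ u v w, G.Adj v w → δ u w ≤ δ u v + 1
  closer : ∀ u v, {w | G.Adj v w ∧ δ u w + 1 = δ u v}.ncard = δ u v
  farther : ∀ u v, {w | G.Adj v w ∧ δ u w = δ u v + 1}.ncard + 3 * δ u v = 3 * d

theorem HamLike.exists_walk {V : Type} {G : SimpleGraph V} {d : ℕ} {δ : V → V → ℕ}
    (h : HamLike G d δ) (u : V) : ∀ (n : ℕ) (v : V), δ u v = n → ∃ p : G.Walk u v, p.length = n := by
  intro n
  induction n with
  | zero =>
    intro v hv
    have : u = v := (h.zero u v).1 hv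
    subst this
    exact ⟨Walk.nil, rfl⟩
  | succ n ih =>
    intro v hv
    have hc := h.closer u v
    rw [hv] at hc
    have hne : {w | G.Adj v w ∧ δ u w + 1 = n + 1}.Nonempty := by
      by_contra hcon
      rw [Set.not_nonempty_iff_eq_empty] at hcon
      rw [hcon] at hc
      simp at hc
    obtain ⟨w, hw1, hw2⟩ := hne
    obtain ⟨p, hp⟩ := ih w (by omega)
    refine ⟨p.concat hw1.symm, ?_⟩
    rw [Walk.length_concat, hp]

theorem HamLike.le_length {V : Type} {G : SimpleGraph V} {d : ℕ} {δ : V → V → ℕ}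
    (h : HamLike G d δ) (u : V) {a b : V} (p : G.Walk a b) : δ u b ≤ δ u a + p.length := by
  induction p with
  | nil => simp
  | cons hadj p ih =>
    have := h.step u _ _ hadj
    rw [Walk.length_cons]
    omega

theorem HamLike.connected {V : Type} [Nonempty V] {G : SimpleGraph V} {d : ℕ} {δ : V → V → ℕ}
    (h : HamLike G d δ) : G.Connected := by
  refine ⟨fun u v => ?_⟩
  obtain ⟨p, -⟩ := h.exists_walk u _ v rfl
  exact ⟨p⟩

theorem HamLike.dist_eq {V : Type} [Nonempty V] {G : SimpleGraph V} {d : ℕ} {δ : V → V → ℕ}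
    (h : HamLike G d δ) (u v : V) : G.dist u v = δ u v := by
  obtain ⟨p, hp⟩ := h.exists_walk u _ v rfl
  obtain ⟨q, hq⟩ := h.connected.exists_walk_length_eq_dist u v
  have h1 : G.dist u v ≤ δ u v := hp ▸ dist_le p
  have h2 := h.le_length u q
  have h3 : δ u u = 0 := (h.zero u u).2 rfl
  omega

theorem HamLike.isDistanceRegular {V : Type} [Nonempty V] {G : SimpleGraph V} {d : ℕ}
    {δ : V → V → ℕ} (h : HamLike G d δ) : IsDistanceRegular G := by
  refine ⟨h.connected, fun i => 3 * d - 3 * i, fun i => i, fun u v => ?_⟩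
  simp only [h.dist_eq]
  refine ⟨h.closer u v, ?_⟩
  have := h.farther u v
  omega

theorem sh_hamLike : HamLike Sh 2 (fun u v => wt (v - u)) where
  zero u v := by
    have key : ∀ z, wt z = 0 ↔ z = 0 := by decide
    rw [key, sub_eq_zero, eq_comm]
  step u v w h := by
    have key : ∀ z, ∀ s ∈ conn, wt (z + s) ≤ wt z + 1 := by decide
    have := key (v - u) (w - v) h
    rwa [show v - u + (w - v) = w - u by abel] at this
  closer u v := by
    have key : ∀ z, (conn.filter fun s => wt (z + s) + 1 = wt z).card = wt z := by decide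
    have e : {w | Sh.Adj v w ∧ wt (w - u) + 1 = wt (v - u)} =
        (fun s => s + v) '' ((conn.filter fun s => wt (v - u + s) + 1 = wt (v - u) : Finset _) :
          Set (ZMod 4 × ZMod 4)) := by
      ext w
      simp only [Set.mem_ofPred_eq, Set.mem_image, Finset.coe_filter, sh_adj]
      constructor
      · rintro ⟨h1, h2⟩
        refine ⟨w - v, ⟨h1, ?_⟩, by abel⟩
        rwa [show v - u + (w - v) = w - u by abel]
      · rintro ⟨s, ⟨h1, h2⟩, rfl⟩
        refine ⟨by simpa using h1, ?_⟩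
        rwa [show s + v - u = v - u + s by abel]
    rw [e, Set.ncard_image_of_injective _ (add_left_injective v), Set.ncard_coe_finset, key]
  farther u v := by
    have key : ∀ z, (conn.filter fun s => wt (z + s) = wt z + 1).card + 3 * wt z = 3 * 2 := by
      decide
    have e : {w | Sh.Adj v w ∧ wt (w - u) = wt (v - u) + 1} =
        (fun s => s + v) '' ((conn.filter fun s => wt (v - u + s) = wt (v - u) + 1 : Finset _) :
          Set (ZMod 4 × ZMod 4)) := by
      ext w
      simp only [Set.mem_ofPred_eq, Set.mem_image, Finset.coe_filter, sh_adj]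
      constructor
      · rintro ⟨h1, h2⟩
        refine ⟨w - v, ⟨h1, ?_⟩, by abel⟩
        rwa [show v - u + (w - v) = w - u by abel]
      · rintro ⟨s, ⟨h1, h2⟩, rfl⟩
        refine ⟨by simpa using h1, ?_⟩
        rwa [show s + v - u = v - u + s by abel]
    rw [e, Set.ncard_image_of_injective _ (add_left_injective v), Set.ncard_coe_finset, key]

/-- Counting neighbours in a Cartesian product. -/
theorem ncard_box {V W : Type} [Finite V] [Finite W] (G : SimpleGraph V) (H : SimpleGraph W)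
    (v : V × W) (P : V × W → Prop) :
    {w | (G □ H).Adj v w ∧ P w}.ncard =
      {x | G.Adj v.1 x ∧ P (x, v.2)}.ncard + {y | H.Adj v.2 y ∧ P (v.1, y)}.ncard := by
  have e : {w | (G □ H).Adj v w ∧ P w} =
      (fun x => (x, v.2)) '' {x | G.Adj v.1 x ∧ P (x, v.2)} ∪
        (fun y => (v.1, y)) '' {y | H.Adj v.2 y ∧ P (v.1, y)} := by
    ext ⟨a, b⟩
    simp only [Set.mem_ofPred_eq, Set.mem_union, Set.mem_image, boxProd_adj, Prod.mk.injEq]
    constructor
    · rintro ⟨⟨h1, h2⟩ | ⟨h1, h2⟩, h3⟩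
      · left
        subst h2
        exact ⟨a, ⟨h1, h3⟩, rfl, rfl⟩
      · right
        subst h2
        exact ⟨b, ⟨h1, h3⟩, rfl, rfl⟩
    · rintro (⟨x, ⟨h1, h2⟩, h3, h4⟩ | ⟨y, ⟨h1, h2⟩, h3, h4⟩)
      · subst h3; subst h4
        exact ⟨Or.inl ⟨h1, rfl⟩, h2⟩
      · subst h3; subst h4
        exact ⟨Or.inr ⟨h1, rfl⟩, h2⟩
  rw [e, Set.ncard_union_eq]
  · rw [Set.ncard_image_of_injective _ (Prod.mk_left_injective v.2),
      Set.ncard_image_of_injective _ (Prod.mk_right_injective v.1)]
  · rw [Set.disjoint_left]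
    rintro ⟨a, b⟩ ⟨x, ⟨h1, -⟩, h3⟩ ⟨y, ⟨h5, -⟩, h7⟩
    simp only [Prod.mk.injEq] at h3 h7
    rw [h3.1, ← h7.1] at h1
    exact G.loopless.irrefl _ h1

theorem HamLike.boxProd {V W : Type} [Finite V] [Finite W] {G : SimpleGraph V}
    {H : SimpleGraph W} {d e : ℕ} {δ : V → V → ℕ} {ε : W → W → ℕ}
    (hG : HamLike G d δ) (hH : HamLike H e ε) :
    HamLike (G □ H) (d + e) (fun u v => δ u.1 v.1 + ε u.2 v.2) where
  zero u v := by
    rw [Nat.add_eq_zero_iff, hG.zero, hH.zero, Prod.ext_iff]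
  step u v w h := by
    rw [boxProd_adj] at h
    rcases h with ⟨h1, h2⟩ | ⟨h1, h2⟩
    · have := hG.step u.1 _ _ h1
      rw [h2]; omega
    · have := hH.step u.2 _ _ h1
      rw [h2]; omega
  closer u v := by
    rw [ncard_box]
    have h1 := hG.closer u.1 v.1
    have h2 := hH.closer u.2 v.2
    have e1 : {x | G.Adj v.1 x ∧ δ u.1 x + ε u.2 v.2 + 1 = δ u.1 v.1 + ε u.2 v.2} =
        {x | G.Adj v.1 x ∧ δ u.1 x + 1 = δ u.1 v.1} := by
      ext x
      simp only [Set.mem_ofPred_eq]
      constructor <;> rintro ⟨a, b⟩ <;> exact ⟨a, by omega⟩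
    have e2 : {y | H.Adj v.2 y ∧ δ u.1 v.1 + ε u.2 y + 1 = δ u.1 v.1 + ε u.2 v.2} =
        {y | H.Adj v.2 y ∧ ε u.2 y + 1 = ε u.2 v.2} := by
      ext x
      simp only [Set.mem_ofPred_eq]
      constructor <;> rintro ⟨a, b⟩ <;> exact ⟨a, by omega⟩
    simp only [e1, e2, h1, h2]
  farther u v := by
    rw [ncard_box]
    have h1 := hG.farther u.1 v.1
    have h2 := hH.farther u.2 v.2
    have e1 : {x | G.Adj v.1 x ∧ δ u.1 x + ε u.2 v.2 = δ u.1 v.1 + ε u.2 v.2 + 1} =
        {x | G.Adj v.1 x ∧ δ u.1 x = δ u.1 v.1 + 1} := by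
      ext x
      simp only [Set.mem_ofPred_eq]
      constructor <;> rintro ⟨a, b⟩ <;> exact ⟨a, by omega⟩
    have e2 : {y | H.Adj v.2 y ∧ δ u.1 v.1 + ε u.2 y = δ u.1 v.1 + ε u.2 v.2 + 1} =
        {y | H.Adj v.2 y ∧ ε u.2 y = ε u.2 v.2 + 1} := by
      ext x
      simp only [Set.mem_ofPred_eq]
      constructor <;> rintro ⟨a, b⟩ <;> exact ⟨a, by omega⟩
    simp only [e1, e2]
    omega

/-! ### Colourings and cliques of the Shrikhande graph -/

theorem no_four_clique (f : Fin 4 → ZMod 4 × ZMod 4) (h : ∀ i j, i ≠ j → Sh.Adj (f i) (f j)) :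
    False := by
  have key : ∀ x ∈ conn, ∀ y ∈ conn, ∀ z ∈ conn,
      ¬(y - x ∈ conn ∧ z - x ∈ conn ∧ z - y ∈ conn) := by decide
  refine key (f 1 - f 0) (h 0 1 (by decide)) (f 2 - f 0) (h 0 2 (by decide)) (f 3 - f 0)
    (h 0 3 (by decide)) ⟨?_, ?_, ?_⟩
  · rw [sub_sub_sub_cancel_right]; exact h 1 2 (by decide)
  · rw [sub_sub_sub_cancel_right]; exact h 1 3 (by decide)
  · rw [sub_sub_sub_cancel_right]; exact h 2 3 (by decide)

theorem third (a b c d : Fin 3) (h1 : a ≠ b) (h2 : a ≠ c) (h3 : b ≠ c) (h4 : d ≠ a)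
    (h5 : d ≠ b) : d = c := by omega

theorem no_three_col (f : ZMod 4 × ZMod 4 → Fin 3) (h : ∀ x y, Sh.Adj x y → f x ≠ f y) :
    False := by
  -- vertices on an antidiagonal have the same colour
  have a1 : ∀ x y : ZMod 4, f (x + 1, y) = f (x, y + 1) := by
    intro x y
    refine third (f (x, y)) (f (x + 1, y + 1)) _ _ (h _ _ ?_) (h _ _ ?_) (h _ _ ?_) (h _ _ ?_)
      (h _ _ ?_)
    all_goals rw [sh_adj, Prod.mk_sub_mk]; simp; try decide
  have b1 : f (0, 1) = f (1, 0) := (a1 0 0).symm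
  have b2 : f (1, 1) = f (2, 0) := (a1 1 0).symm
  have b3 : f (2, 1) = f (3, 0) := (a1 2 0).symm
  have b4 : f (3, 1) = f (0, 0) := (a1 3 0).symm
  have n01 : f (0, 0) ≠ f (1, 0) := h _ _ (by decide)
  have n12 : f (1, 0) ≠ f (2, 0) := h _ _ (by decide)
  have n23 : f (2, 0) ≠ f (3, 0) := h _ _ (by decide)
  have n30 : f (3, 0) ≠ f (0, 0) := h _ _ (by decide)
  have n02 : f (0, 0) ≠ f (2, 0) := b2 ▸ h (0, 0) (1, 1) (by decide)
  have n13 : f (1, 0) ≠ f (3, 0) := b3 ▸ h (1, 0) (2, 1) (by decide)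
  exact n30 (third _ _ _ _ n12 n01.symm n02.symm n13.symm n23.symm)

/-! ### Translations -/

/-- Addition of a homomorphic image in the Shrikhande graph. -/
def addHom {V : Type} {G : SimpleGraph V} (φ : G →g Sh) : (boxProd G Sh) →g Sh where
  toFun p := φ p.1 + p.2
  map_rel' := by
    intro p q h
    rw [boxProd_adj] at h
    rcases h with ⟨h1, h2⟩ | ⟨h1, h2⟩
    · have := φ.map_adj h1
      rw [sh_adj] at this ⊢
      rw [h2, add_sub_add_right_eq_sub]
      exact this
    · rw [sh_adj] at h1 ⊢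
      rw [h2, add_sub_add_left_eq_sub]
      exact h1

/-- The second factor inside a Cartesian product. -/
def fiberHom {V : Type} (G : SimpleGraph V) (x : V) : Sh →g (boxProd G Sh) where
  toFun y := (x, y)
  map_rel' := by
    intro p q h
    rw [boxProd_adj]
    exact Or.inr ⟨h, rfl⟩

/-- The vertex type of the `s`-th power (plus one). -/
def Vtx : ℕ → Type
  | 0 => ZMod 4 × ZMod 4
  | n + 1 => Vtx n × (ZMod 4 × ZMod 4)

/-- Iterated Cartesian products of the Shrikhande graph: `Doob n` has `n + 1` factors. -/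
def Doob : (n : ℕ) → SimpleGraph (Vtx n)
  | 0 => Sh
  | n + 1 => (Doob n) □ Sh

instance vtxFinite : ∀ n, Finite (Vtx n)
  | 0 => inferInstanceAs (Finite (ZMod 4 × ZMod 4))
  | n + 1 => by
    have := vtxFinite n
    exact inferInstanceAs (Finite (Vtx n × (ZMod 4 × ZMod 4)))

instance vtxNonempty : ∀ n, Nonempty (Vtx n)
  | 0 => inferInstanceAs (Nonempty (ZMod 4 × ZMod 4))
  | n + 1 => by
    have := vtxNonempty n
    exact inferInstanceAs (Nonempty (Vtx n × (ZMod 4 × ZMod 4)))

theorem card_vtx : ∀ n, Nat.card (Vtx n) = 16 ^ (n + 1)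
  | 0 => by
    show Nat.card (ZMod 4 × ZMod 4) = 16 ^ (0 + 1)
    simp [Nat.card_prod, Nat.card_zmod]
  | n + 1 => by
    show Nat.card (Vtx n × (ZMod 4 × ZMod 4)) = 16 ^ (n + 1 + 1)
    rw [Nat.card_prod, card_vtx n, Nat.card_prod, Nat.card_zmod, pow_succ 16 (n + 1)]

theorem doob_hamLike : ∀ n, ∃ δ, HamLike (Doob n) (2 * (n + 1)) δ
  | 0 => ⟨_, sh_hamLike⟩
  | n + 1 => by
    obtain ⟨δ, h⟩ := doob_hamLike n
    exact ⟨_, h.boxProd sh_hamLike⟩

theorem doob_to_sh : ∀ n, Nonempty (Doob n →g Sh)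
  | 0 => ⟨Hom.id⟩
  | n + 1 => by
    obtain ⟨φ⟩ := doob_to_sh n
    exact ⟨addHom φ⟩

theorem sh_to_doob : ∀ n, Nonempty (Sh →g Doob n)
  | 0 => ⟨Hom.id⟩
  | n + 1 => ⟨fiberHom (Doob n) (Classical.arbitrary _)⟩

/-- Every finite graph has a core. -/
theorem exists_core {V : Type} [Finite V] (X : SimpleGraph V) :
    ∃ (W : Type) (_ : Finite W) (Y : SimpleGraph W), IsCoreOf Y X := by
  classical
  -- the sets onto which `X` maps
  let P : ℕ → Prop := fun n => ∃ S : Set V, S.ncard = n ∧ Nonempty (X →g X.induce S)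
  have hP : ∃ n, P n := ⟨_, Set.univ, rfl, ⟨(Embedding.induce (G := X) Set.univ).toHom |> fun _ =>
    ⟨fun v => ⟨v, trivial⟩, fun {a b} h => h⟩⟩⟩
  obtain ⟨S, hS, ⟨r⟩⟩ := Nat.find_spec hP
  refine ⟨S, inferInstance, X.induce S, ?_, ⟨Embedding.induce S⟩, ⟨r⟩⟩
  intro f
  -- `f` is injective
  have hinj : Function.Injective f := by
    by_contra hni
    let T : Set V := Set.range fun x : S => (f x : V)
    have hT : Nonempty (X →g X.induce T) :=
      ⟨⟨fun v => ⟨(f (r v) : V), ⟨r v, rfl⟩⟩, fun {a b} h => f.map_adj (r.map_adj h)⟩⟩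
    have hcard : T.ncard < S.ncard := by
      have h1 : Nat.card S = S.ncard := Nat.card_coe_set_eq S
      have h2 : T.ncard = (Set.range f).ncard := by
        have : T = Subtype.val '' (Set.range f) := by
          rw [← Set.range_comp]; rfl
        rw [this, Set.ncard_image_of_injective _ Subtype.val_injective]
      rw [h2, ← h1]
      have h3 : (Set.range f) ⊂ Set.univ := by
        rw [Set.ssubset_univ_iff]
        intro h
        exact hni (Finite.injective_iff_surjective.2 (Set.range_eq_univ.1 h))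
      calc (Set.range f).ncard < (Set.univ : Set S).ncard := Set.ncard_lt_ncard h3
        _ = Nat.card S := Set.ncard_univ S
    exact Nat.find_min hP (hS ▸ hcard) ⟨T, rfl, hT⟩
  -- hence an automorphism
  have hbij : Function.Bijective f := ⟨hinj, Finite.injective_iff_surjective.1 hinj⟩
  let E : S ≃ S := Equiv.ofBijective f hbij
  -- the inverse also preserves adjacency, because `f` is injective on the finite edge set
  have hadj : ∀ a b, (X.induce S).Adj (f a) (f b) → (X.induce S).Adj a b := by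
    intro a b hab
    let A : Set (S × S) := {p | (X.induce S).Adj p.1 p.2}
    let F : A → A := fun p => ⟨(f p.1.1, f p.1.2), f.map_adj p.2⟩
    have hF : Function.Injective F := by
      intro p q hpq
      have h1 := congrArg (fun t : A => t.1.1) hpq
      have h2 := congrArg (fun t : A => t.1.2) hpq
      exact Subtype.ext (Prod.ext (hinj h1) (hinj h2))
    obtain ⟨p, hp⟩ := (Finite.injective_iff_surjective.1 hF) ⟨(f a, f b), hab⟩
    have h1 : f p.1.1 = f a := congrArg (fun t : A => t.1.1) hp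
    have h2 : f p.1.2 = f b := congrArg (fun t : A => t.1.2) hp
    have := p.2
    rw [← hinj h1, ← hinj h2]
    exact this
  exact ⟨⟨E, fun {a b} => ⟨hadj a b, fun h => f.map_adj h⟩⟩, fun w => rfl⟩

/-- For every `s ≥ 2` there is a distance-regular graph with `16 ^ s` vertices (the Cartesian
product of `s` Shrikhande graphs) whose core is neither the graph itself nor complete. -/
theorem result : ∀ s : ℕ, 2 ≤ s → ∃ (V : Type) (_ : Finite V) (X : SimpleGraph V),
    Nat.card V = 16 ^ s ∧ IsDistanceRegular X ∧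
    (∃ (W : Type) (_ : Finite W) (Y : SimpleGraph W), IsCoreOf Y X) ∧
    ∀ (W : Type) (Y : SimpleGraph W), IsCoreOf Y X → IsEmpty (X ≃g Y) ∧ Y ≠ ⊤ := by
  intro s hs
  obtain ⟨n, rfl⟩ : ∃ n, s = n + 1 + 1 := ⟨s - 2, by omega⟩
  refine ⟨Vtx (n + 1), inferInstance, Doob (n + 1), card_vtx (n + 1), ?_, exists_core _, ?_⟩
  · obtain ⟨δ, h⟩ := doob_hamLike (n + 1)
    exact h.isDistanceRegular
  rintro W Y ⟨hcore, ⟨i⟩, ⟨r⟩⟩
  obtain ⟨φ⟩ := doob_to_sh (n + 1)
  obtain ⟨ψ⟩ := sh_to_doob (n + 1)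
  refine ⟨⟨fun e => ?_⟩, ?_⟩
  · -- if `X ≅ Y`, the endomorphism of `X` through `Sh` is injective
    let g : Y →g Y := e.toHom.comp ((ψ.comp φ).comp e.symm.toHom)
    obtain ⟨a, ha⟩ := hcore g
    have hinj : Function.Injective φ := by
      intro x y hxy
      have h1 : g (e x) = g (e y) := by
        show e (ψ (φ (e.symm (e x)))) = e (ψ (φ (e.symm (e y))))
        simp [hxy]
      rw [← ha, ← ha] at h1
      exact e.injective (a.injective h1)
    have hc := Nat.card_le_card_of_injective φ hinj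
    rw [card_vtx, Nat.card_prod, Nat.card_zmod] at hc
    have : 16 ^ 2 ≤ 16 ^ (n + 1 + 1) := Nat.pow_le_pow_right (by norm_num) (by omega)
    omega
  · rintro rfl
    have : Finite W := Finite.of_injective i i.injective
    have := Fintype.ofFinite W
    rcases le_or_gt (Fintype.card W) 3 with h3 | h3
    · -- a colouring of `Sh` with three colours
      obtain ⟨j⟩ : Nonempty (W ↪ Fin 3) := by
        rw [Function.Embedding.nonempty_iff_card_le]
        simpa using h3
      refine no_three_col (fun x => j (r (ψ x))) ?_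
      intro x y hxy hcol
      have h1 : (⊤ : SimpleGraph W).Adj (r (ψ x)) (r (ψ y)) := r.map_adj (ψ.map_adj hxy)
      exact h1 (j.injective hcol)
    · obtain ⟨j⟩ : Nonempty (Fin 4 ↪ W) := by
        rw [Function.Embedding.nonempty_iff_card_le, Fintype.card_fin]
        exact h3
      refine no_four_clique (fun t => φ (i (j t))) ?_
      intro a b hab
      refine φ.map_adj (i.map_adj_iff.2 ?_)
      exact fun h => hab (j.injective h)

end Pool.Agent.Results.MP_06b6d5_co.DoobGraphs
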